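import Pool.Agent.H56.MG.Fin

/-!
Kept text (replaced on 2026-12-04 by Results/MP_2b6f50_lc/GenericIdeals). MP_2b6f50_lc (the `E₁` conjecture): Borel equivalence relations which are idealistic through category
ideals are Borel reducible to a Polish group action. Every point `x` has its own topology on its class;
only the ideal of the meager sets is the same for the points of a class.
-/

namespace Pool.Agent.H56.MG.Keep.MeagerIdeals

open Set Topology TopologicalSpace

/-- Let `F` be a Borel equivalence relation on a standard Borel space `X`. Suppose that for every point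
`x` there is a T0 topology `σ x` on the class of `x` which is a Baire space, such that there are sets
`O n x` (`n : ℕ`), with `{(x, y) | y ∈ O n x}` Borel, whose traces on the class of `x` form a base of
`σ x`, and Borel functions `e i : X → X` such that the points `e i x` in the class of `x` are dense
there. Suppose that for equivalent `x`, `x'` every Borel set which is comeager in the class for `σ x` is
comeager for `σ x'` (the topologies may be different). Then there are a Polish group `G`, a continuous
action of `G` on a Polish space `Z` and a Borel map `f : X → Z` with `F x x'` iff `f x` and `f x'` lie in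
the same orbit. -/
theorem result (X : Type) [MeasurableSpace X] [StandardBorelSpace X] (F : Setoid X)
    (hF : MeasurableSet {p : X × X | F p.1 p.2})
    (σ : ∀ x : X, TopologicalSpace {y : X // F x y})
    (hT : ∀ x, @T0Space _ (σ x)) (hB : ∀ x, @BaireSpace _ (σ x))
    (O : ℕ → X → Set X) (hO : ∀ n, MeasurableSet {p : X × X | p.2 ∈ O n p.1})
    (hbase : ∀ x, @TopologicalSpace.IsTopologicalBasis _ (σ x) (range fun n => {y | y.1 ∈ O n x}))
    (e : ℕ → X → X) (he : ∀ i, Measurable (e i))
    (hd : ∀ x, @Dense _ (σ x) {y | ∃ i, y.1 = e i x})
    (hI : ∀ x x' (A : Set X), F x x' → MeasurableSet A →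
      {y : {y : X // F x y} | y.1 ∈ A} ∈ @residual _ (σ x) →
      {y : {y : X // F x' y} | y.1 ∈ A} ∈ @residual _ (σ x')) :
    ∃ (G Z : Type) (_ : TopologicalSpace G) (_ : Group G) (_ : IsTopologicalGroup G)
      (_ : PolishSpace G) (_ : TopologicalSpace Z) (_ : PolishSpace Z) (_ : MeasurableSpace Z)
      (_ : BorelSpace Z) (_ : MulAction G Z) (_ : ContinuousSMul G Z) (f : X → Z),
      Measurable f ∧ ∀ x x' : X, F x x' ↔ ∃ g : G, g • f x = f x' :=
  Pool.Agent.H56.MG.main_mg
    { σ := σ, t0 := hT, baire := hB, O := O, e := e, mF := hF, mO := hO, base := hbase,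
      me := he, dense := hd, inv := hI }

end Pool.Agent.H56.MG.Keep.MeagerIdeals
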